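import Pool.Agent.H17.FM.AB3
import Pool.Agent.H17.FM.Final
import Pool.Agent.H31.LB.ESet
import Pool.Agent.H62.TwoLev
import Pool.Agent.H79.VC.Num

set_option autoImplicit false

/-!
Frankl's conjecture for all but finitely many lattices of bounded breadth: assembly.
-/

namespace Pool.Agent.H17.VC

open Finset

open Classical in
theorem main (b : ℕ) : ∃ L0 : ℝ, ∀ (L : Type*) [Lattice L] [BoundedOrder L] [Fintype L]
    (M : Finset L), (∀ a : L, SupIrred a → ∃ m ∈ M, a ≤ m) →
    (∀ A ⊆ M, ∃ B ⊆ A, B.card ≤ b ∧ B.sup id = A.sup id) →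
    L0 ≤ Real.log (Fintype.card L) → ∃ m ∈ M, 2 * #{y : L | m ≤ y} < Fintype.card L := by
  obtain ⟨L0, hL03, hnum⟩ := Pool.Agent.H79.VC.numbers b
  refine ⟨L0, ?_⟩
  intro L _ _ _ M hM hb hL
  by_contra hcon
  push Not at hcon
  set N : ℝ := (Fintype.card L : ℝ) with hN
  have hne : Nonempty L := ⟨⊥⟩
  have hNpos : 0 < N := by rw [hN]; exact_mod_cast Fintype.card_pos
  set l : ℝ := Real.log N with hl
  have hl3 : 3 ≤ l := hL03.trans hL
  have hlpos : 0 < l := by linarith
  have hN2 : 2 ≤ Fintype.card L := by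
    by_contra h0
    push Not at h0
    have h1 : N ≤ 1 := by rw [hN]; exact_mod_cast (by omega : Fintype.card L ≤ 1)
    have h2 : l ≤ 0 := Real.log_nonpos hNpos.le h1
    linarith
  -- level 1
  set e : ℝ := 1 / l with he
  have hepos : 0 < e := by rw [he]; positivity
  have he3 : e ≤ 1 / 3 := by
    rw [he]
    exact one_div_le_one_div_of_le (by norm_num) hl3
  set t : ℕ := ⌊2 * l ^ 2⌋₊ + 1 with ht
  have ht1 : 2 * l ^ 2 < t := by
    rw [ht]; push_cast; exact Nat.lt_floor_add_one _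
  have ht2 : (t : ℝ) ≤ 2 * l ^ 2 + 2 := by
    rw [ht]; push_cast
    have : (⌊2 * l ^ 2⌋₊ : ℝ) ≤ 2 * l ^ 2 := Nat.floor_le (by positivity)
    linarith
  have hte : 2 * l < e * t := by
    have h1 : e * (2 * l ^ 2) = 2 * l := by rw [he]; field_simp
    have h2 : e * (2 * l ^ 2) < e * t := mul_lt_mul_of_pos_left ht1 hepos
    linarith
  set Kn : ℕ := ((t + 1) ^ b + 1) ^ b with hKn
  have hKn1 : (1 : ℝ) ≤ (Kn : ℝ) := by
    have : 0 < Kn := by rw [hKn]; positivity
    exact_mod_cast this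
  have hlogK : 0 ≤ Real.log Kn := Real.log_nonneg hKn1
  -- level 2
  set e1 : ℝ := 1 / (96 * ((b : ℝ) ^ 2 + 1)) with he1
  have he1pos : 0 < e1 := by rw [he1]; positivity
  have he196 : e1 ≤ 1 / 96 := by
    rw [he1]
    refine one_div_le_one_div_of_le (by norm_num) ?_
    nlinarith [sq_nonneg (b : ℝ)]
  set t1 : ℕ := ⌊2 * Real.log Kn / e1⌋₊ + 1 with ht1'
  have ht11 : 2 * Real.log Kn / e1 < t1 := by
    rw [ht1']; push_cast; exact Nat.lt_floor_add_one _
  have ht12 : (t1 : ℝ) ≤ 2 * Real.log Kn / e1 + 2 := by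
    rw [ht1']; push_cast
    have : (⌊2 * Real.log Kn / e1⌋₊ : ℝ) ≤ 2 * Real.log Kn / e1 := Nat.floor_le (by positivity)
    linarith
  have hte1 : 2 * Real.log Kn < e1 * t1 := by
    rw [div_lt_iff₀ he1pos] at ht11
    linarith
  set K1n : ℕ := ((t1 + 1) ^ b + 1) ^ b with hK1n
  have hK1n1 : (1 : ℝ) ≤ (K1n : ℝ) := by
    have : 0 < K1n := by rw [hK1n]; positivity
    exact_mod_cast this
  obtain ⟨h32, hlt⟩ := hnum l hL t t1 Kn K1n e1 ht2 hKn1 (by rw [hKn]; push_cast; exact le_rfl)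
    he1 ht12 hK1n1 (by rw [hK1n]; push_cast; exact le_rfl)
  obtain ⟨g, g1, hg, hg1, hfe, hfe1, hK, hK1, hdet⟩ :=
    Pool.Agent.H62.TwoLev.two_levels b M hb e e1 t t1 hte hte1
  -- coordinates
  set Q := M.equivFin with hQ
  set j : Fin M.card → L := fun m => (Q.symm m : L) with hj
  have hjM : ∀ m, j m ∈ M := fun m => (Q.symm m).2
  have hjs : ∀ a ∈ M, ∃ m, j m = a := by
    intro a ha
    exact ⟨Q ⟨a, ha⟩, by simp [hj]⟩
  have hinj : ∀ x y : L, (∀ m, x ⊓ j m = y ⊓ j m) → x = y := by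
    intro x y hxy
    refine Pool.Agent.H17.FM.eq_of_supIrred_le fun a ha => ?_
    obtain ⟨c, hc, hac⟩ := hM a ha
    obtain ⟨m, rfl⟩ := hjs c hc
    have q1 : a ≤ x ↔ a ≤ x ⊓ j m := by simp [hac]
    have q2 : a ≤ y ↔ a ≤ y ⊓ j m := by simp [hac]
    rw [q1, q2, hxy m]
  have hhalf : ∀ m, N / 2 ≤ (#{y : L | j m ≤ y} : ℝ) := by
    intro m
    have h1 := hcon (j m) (hjM m)
    have h2 : N ≤ 2 * (#{y : L | j m ≤ y} : ℝ) := by rw [hN]; exact_mod_cast h1
    linarith
  have hA : ∀ m, (1 / 2 - e) * (Fintype.card L : ℝ) ≤ (#{y : L | g (j m) ≤ y} : ℝ) := by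
    intro m
    have h1 := hhalf m
    have h2 := hfe (j m) (hjM m)
    rw [← hN] at h2 ⊢
    linarith
  have hB : ∀ m, (1 / 2 - e - e1) * (Fintype.card L : ℝ) ≤
      (#{y : L | g1 (j m) ≤ y} : ℝ) := by
    intro m
    have h1 := hA m
    have h2 := hfe1 (j m) (hjM m)
    rw [← hN] at h1 h2 ⊢
    linarith
  -- class maps
  have hcard : ∀ (G : L → L) (Kk : ℕ),
      ((univ : Finset L).image (fun x => M.filter (fun m => G m ≤ x))).card ≤ Kk →
      (((univ : Finset L).image
        (fun x => (univ.filter (fun m : Fin M.card => G (j m) ≤ x)))).card : ℝ) ≤ Kk := by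
    intro G Kk hG
    have h1 : (univ : Finset L).image (fun x => (univ.filter (fun m : Fin M.card => G (j m) ≤ x)))
        = ((univ : Finset L).image (fun x => M.filter (fun m => G m ≤ x))).image
          (fun s => univ.filter (fun m : Fin M.card => j m ∈ s)) := by
      rw [Finset.image_image]
      refine Finset.image_congr fun x _ => ?_
      ext m
      simp [hjM m]
    rw [h1]
    exact_mod_cast Finset.card_image_le.trans hG
  obtain ⟨E, hE1, hE2⟩ := Pool.Agent.H31.LB.eset j (fun m => g (j m))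
    (fun m => hg (j m) (hjM m)) hinj
    (fun x => (univ.filter (fun m : Fin M.card => g (j m) ≤ x)))
    (fun x y hxy m => by
      have := Finset.ext_iff.1 hxy m
      simpa using this)
    Kn (by have := hcard g Kn hK; convert this) e hepos.le hN2 hA (by rw [← hN]; exact h32)
  rw [← hN, ← hl] at hE1
  set η : ℝ := e + Real.log Kn / (2 * l) with hη
  have hηpos : 0 < η := by rw [hη]; positivity
  have hη32 : 32 * η ≤ 1 := h32
  have hfin := Pool.Agent.H17.AB.final j (fun m => g (j m)) (fun m => g1 (j m)) hinj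
    (fun m => hg (j m) (hjM m)) (fun m => hg1 (j m) (hjM m)) e e1 hepos.le he1pos.le
    (by linarith) hA hB
    (fun x x' h m => hdet x x' (fun a ha => by
      obtain ⟨m', rfl⟩ := hjs a ha
      exact h m') (j m) (hjM m))
    Kn K1n hK1n1 (by have := hcard g Kn hK; convert this)
    (by have := hcard g1 K1n hK1; convert this) E (16 * η) (by positivity) (by linarith) hE1 hE2
  rw [← hN, ← hl] at hfin
  have hcmp : Real.log (1 / (48 * η)) ≤ Real.log (1 / (16 * η)) := by
    apply Real.log_le_log (by positivity)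
    apply one_div_le_one_div_of_le (by positivity)
    linarith
  have h48 : Real.log (1 / (48 * (1 / l + Real.log Kn / (2 * l)))) = Real.log (1 / (48 * η)) := by
    rw [hη, he]
  rw [h48] at hlt
  have h2e : 0 ≤ 2 * (1 / l) * Real.log Kn := by positivity
  rw [← he] at hlt h2e
  nlinarith

end Pool.Agent.H17.VC
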